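import Mathlib

/-!
# Additive complements of the squares: an upper bound for the minimal density

We show `c ≤ 9/2`, where `c` is the infimum of `limsup |A ∩ [1,N]| / √N` over all sets
`A ⊆ ℕ` such that every natural number is `a + n ^ 2` with `a ∈ A`.

The construction is 3-adic.  For `k ≡ r + 1 (mod 3)` we only use squares of integers prime to 3 and
elements `a ≡ r (mod 3)`.  Since squaring is a bijection from the residues `≡ 1 (mod 3)` modulo
`3 ^ i` onto themselves, a lattice of step `3 ^ i` serves all `k` of the right class up to the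
scale `9 ^ i`; the lattice is thinned out in two steps between consecutive scales.
-/

namespace Pool.Agent.Results.MP_a02313_nt.NineHalves

open Filter Topology

/-- `A ⊆ ℕ` is admissible if every `k ∈ ℕ` is `a + n ^ 2` with `a ∈ A` and `n ∈ ℕ`. -/
def Admissible (A : Set ℕ) : Prop := ∀ k : ℕ, ∃ a ∈ A, ∃ n : ℕ, k = a + n ^ 2

/-- The counting function `|A ∩ {1, …, N}|`. -/
noncomputable def count (A : Set ℕ) (N : ℕ) : ℕ := (A ∩ Set.Icc 1 N).ncard

/-- `δ(A) = limsup_{N → ∞} |A ∩ {1, …, N}| / √N`, an element of `[0, ∞]`. -/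
noncomputable def delta (A : Set ℕ) : ENNReal :=
  limsup (fun N : ℕ => ENNReal.ofReal ((count A N : ℝ) / Real.sqrt (N : ℝ))) atTop

/-- `c = inf {δ(A) : A ⊆ ℕ admissible}`. -/
noncomputable def c : ENNReal := ⨅ A : {A : Set ℕ // Admissible A}, delta A.1

/-! ### Square roots modulo `3 ^ i` and `2 * 3 ^ i` -/

lemma root3 (i : ℕ) (κ : ℤ) (hκ : κ % 3 = 1) :
    ∃ m : ℤ, 0 < m ∧ m < 3 ^ (i + 1) ∧ m % 3 = 1 ∧ (3 ^ (i + 1) : ℤ) ∣ κ - m ^ 2 := by
  induction i with
  | zero =>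
    refine ⟨1, by norm_num, by norm_num, by norm_num, ?_⟩
    simp only [zero_add, pow_one, one_pow]
    omega
  | succ i ih =>
    obtain ⟨m, hm0, hmlt, hm3, q, hq⟩ := ih
    set P : ℤ := 3 ^ (i + 1) with hP
    have hPpos : 0 < P := by positivity
    have hP3 : P % 3 = 0 := by
      rw [hP, pow_succ]; omega
    set t : ℤ := (2 * q) % 3 with ht
    have ht0 : 0 ≤ t := by omega
    have ht3 : t < 3 := by omega
    refine ⟨m + P * t, ?_, ?_, ?_, ?_⟩
    · positivity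
    · have : (3 : ℤ) ^ (i + 1 + 1) = 3 * P := by rw [hP]; ring
      rw [this]
      nlinarith
    · obtain ⟨p, hp⟩ : (3 : ℤ) ∣ P := Int.dvd_of_emod_eq_zero hP3
      rw [hp, mul_assoc, Int.add_mul_emod_self_left]; exact hm3
    · have h1 : κ - (m + P * t) ^ 2 = P * (q - 2 * m * t - P * t ^ 2) := by
        linear_combination hq
      have h2 : (3 : ℤ) ^ (i + 1 + 1) = P * 3 := by rw [hP]; ring
      rw [h1, h2]
      apply mul_dvd_mul_left
      obtain ⟨p, hp⟩ : (3 : ℤ) ∣ P := Int.dvd_of_emod_eq_zero hP3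
      obtain ⟨m', hm'⟩ : ∃ m', m = 3 * m' + 1 := ⟨m / 3, by omega⟩
      obtain ⟨q', hq'⟩ : ∃ q', 2 * q = 3 * q' + t := ⟨(2 * q) / 3, by omega⟩
      have : q - 2 * m * t - P * t ^ 2
          = 3 * (-q - 2 * m' * t - p * t ^ 2 + 2 * q') := by
        rw [hp, hm']
        linear_combination 2 * hq'
      rw [this]
      exact dvd_mul_right _ _

/-- Roots modulo `h = c * 3 ^ (i+1)` for `c = 1, 2`. -/
lemma root (c : ℕ) (hc : c = 1 ∨ c = 2) (i : ℕ) (κ : ℤ) (hκ : κ % 3 = 1) :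
    ∃ m : ℤ, 0 < m ∧ m < c * 3 ^ (i + 1) ∧ m % 3 = 1 ∧ ((c * 3 ^ (i + 1) : ℤ)) ∣ κ - m ^ 2 := by
  obtain ⟨m, hm0, hmlt, hm3, hd⟩ := root3 i κ hκ
  rcases hc with rfl | rfl
  · exact ⟨m, hm0, by simpa using hmlt, hm3, by simpa using hd⟩
  · set P : ℤ := 3 ^ (i + 1) with hP
    have hPodd : P % 2 = 1 := by
      have : Odd P := Odd.pow (by decide)
      obtain ⟨a, ha⟩ := this
      omega
    have hP3 : (3 : ℤ) ∣ P := by rw [hP, pow_succ]; exact dvd_mul_left _ _
    have hcop : IsCoprime (2 : ℤ) P := by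
      refine ⟨-(P / 2), 1, ?_⟩
      omega
    by_cases hpar : (κ - m ^ 2) % 2 = 0
    · refine ⟨m, hm0, ?_, hm3, ?_⟩
      · push_cast; linarith
      · push_cast
        exact hcop.mul_dvd (Int.dvd_of_emod_eq_zero hpar) hd
    · refine ⟨m + P, by linarith, ?_, ?_, ?_⟩
      · push_cast; linarith
      · obtain ⟨p, hp⟩ := hP3
        rw [hp, Int.add_mul_emod_self_left]; exact hm3
      · push_cast
        apply hcop.mul_dvd
        · apply Int.dvd_of_emod_eq_zero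
          have h1 : κ - (m + P) ^ 2 = (κ - m ^ 2) - P * P - 2 * (m * P) := by ring
          obtain ⟨a, ha⟩ : ∃ a, P = 2 * a + 1 := ⟨P / 2, by omega⟩
          have h2 : P * P = 2 * (2 * a * a + 2 * a) + 1 := by rw [ha]; ring
          rw [h1, h2]
          omega
        · have h1 : κ - (m + P) ^ 2 = (κ - m ^ 2) - P * (P + 2 * m) := by ring
          rw [h1]
          exact dvd_sub hd (dvd_mul_right _ _)

/-! ### The building block -/

/-- The thinned 3-adic lattice: `0` and all `h * s` with `h = c * 3 ^ i`, `i ≥ 1`, where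
`s ≡ 1 (mod 3)`, `s < h`, or `s ≡ 2 (mod 3)`, `s < 2 * h`. -/
def B (c : ℕ) : Set ℕ :=
  {b | b = 0 ∨ ∃ i s : ℕ, 1 ≤ i ∧ b = c * 3 ^ i * s ∧
    ((s % 3 = 1 ∧ s < c * 3 ^ i) ∨ (s % 3 = 2 ∧ s < 2 * (c * 3 ^ i)))}

lemma mem_B_of_dvd (c : ℕ) (hc : 0 < c) (j b : ℕ) (hj : 1 ≤ j) (hd : c * 3 ^ j ∣ b)
    (hb : b < (c * 3 ^ j) ^ 2) : b ∈ B c := by
  obtain ⟨s', rfl⟩ := hd
  rcases Nat.eq_zero_or_pos s' with rfl | hs'
  · left; simp
  · right
    obtain ⟨e, s, hs3, hs⟩ := Nat.exists_eq_pow_mul_and_not_dvd hs'.ne' 3 (by norm_num)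
    refine ⟨j + e, s, by omega, ?_, ?_⟩
    · rw [hs, pow_add]; ring
    · have hpos : 0 < c * 3 ^ j := by positivity
      have h1 : s' < c * 3 ^ j := by
        have : c * 3 ^ j * s' < c * 3 ^ j * (c * 3 ^ j) := by rw [← sq]; exact hb
        exact Nat.lt_of_mul_lt_mul_left this
      have h2 : s ≤ s' := by
        rw [hs]; exact Nat.le_mul_of_pos_left _ (by positivity)
      have h3 : c * 3 ^ j ≤ c * 3 ^ (j + e) := by
        apply Nat.mul_le_mul_left
        exact Nat.pow_le_pow_right (by norm_num) (by omega)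
      have h4 : s % 3 ≠ 0 := fun h => hs3 (Nat.dvd_of_mod_eq_zero h)
      have h5 : s < c * 3 ^ (j + e) := by omega
      omega

lemma mem_B_label (c : ℕ) (j s : ℕ) (hj : 1 ≤ j) (hs : s % 3 = 2)
    (hb : s < 2 * (c * 3 ^ j)) : c * 3 ^ j * s ∈ B c :=
  Or.inr ⟨j, s, hj, rfl, Or.inr ⟨hs, hb⟩⟩

/-- Main covering lemma: every `κ ≡ 1 (mod 3)` is `b + n ^ 2` with `b ∈ B c`. -/
lemma cover (c : ℕ) (hc : c = 1 ∨ c = 2) (κ : ℕ) (hκ : κ % 3 = 1) :
    ∃ b ∈ B c, ∃ n : ℕ, κ = b + n ^ 2 := by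
  have hcpos : 0 < c := by rcases hc with rfl | rfl <;> norm_num
  -- a convenient form of the conclusion
  have key : ∀ (b n : ℤ), 0 ≤ b → (κ : ℤ) - n ^ 2 = b → b.toNat ∈ B c →
      ∃ b ∈ B c, ∃ n : ℕ, κ = b + n ^ 2 := by
    intro b n hb h hB
    refine ⟨b.toNat, hB, n.natAbs, ?_⟩
    have h1 : ((b.toNat : ℕ) : ℤ) = b := Int.toNat_of_nonneg hb
    have h2 : ((n.natAbs : ℕ) : ℤ) ^ 2 = n ^ 2 := Int.natAbs_sq n
    have : (κ : ℤ) = ((b.toNat + n.natAbs ^ 2 : ℕ) : ℤ) := by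
      push_cast
      rw [h1]
      have h3 : |n| ^ 2 = n ^ 2 := sq_abs n
      rw [h3]
      linarith
    exact_mod_cast this
  by_cases hsmall : κ < (c * 3 ^ 1) ^ 2
  · -- small `κ`
    rcases hc with rfl | rfl
    · refine ⟨κ - 1, ?_, 1, by omega⟩
      apply mem_B_of_dvd 1 (by norm_num) 1 _ le_rfl
      · simp only [pow_one, one_mul]; omega
      · omega
    · by_cases hpar : κ % 2 = 1
      · refine ⟨κ - 1, ?_, 1, by omega⟩
        apply mem_B_of_dvd 2 (by norm_num) 1 _ le_rfl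
        · simp only [pow_one]; omega
        · omega
      · refine ⟨κ - 4, ?_, 2, by omega⟩
        apply mem_B_of_dvd 2 (by norm_num) 1 _ le_rfl
        · simp only [pow_one]; omega
        · omega
  · push Not at hsmall
    -- choose the scale
    obtain ⟨j, hj1, hjle, hjlt⟩ : ∃ j, 1 ≤ j ∧ (c * 3 ^ j) ^ 2 ≤ κ ∧ κ < (c * 3 ^ (j + 1)) ^ 2 := by
      have hex : ∃ j, κ < (c * 3 ^ (j + 1)) ^ 2 := by
        refine ⟨κ, ?_⟩
        have h1 : κ < 3 ^ κ := Nat.lt_pow_self (by norm_num)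
        have h2 : 3 ^ κ ≤ c * 3 ^ (κ + 1) := by
          calc 3 ^ κ ≤ 3 ^ (κ + 1) := Nat.pow_le_pow_right (by norm_num) (by omega)
            _ ≤ c * 3 ^ (κ + 1) := Nat.le_mul_of_pos_left _ hcpos
        have h3 : c * 3 ^ (κ + 1) ≤ (c * 3 ^ (κ + 1)) ^ 2 := Nat.le_self_pow (by norm_num) _
        omega
      classical
      refine ⟨Nat.find hex, ?_, ?_, Nat.find_spec hex⟩
      · by_contra h
        have h0 : Nat.find hex = 0 := by omega
        have := Nat.find_spec hex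
        rw [h0] at this
        simp only [zero_add] at this
        omega
      · by_contra h
        push Not at h
        have h0 : Nat.find hex ≠ 0 := by
          intro h0
          have := Nat.find_spec hex
          rw [h0] at this
          simp only [zero_add] at this
          omega
        obtain ⟨t, ht⟩ := Nat.exists_eq_succ_of_ne_zero h0
        have hmin := Nat.find_min hex (m := t) (by omega)
        apply hmin
        rw [ht] at h
        exact h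
    obtain ⟨i, rfl⟩ : ∃ i, j = i + 1 := ⟨j - 1, by omega⟩
    obtain ⟨m, hm0, hmlt, hm3, hmd⟩ := root c hc i (κ : ℤ) (by omega)
    set h : ℕ := c * 3 ^ (i + 1) with hh
    have hhpos : 0 < h := by positivity
    have hh' : c * 3 ^ (i + 1 + 1) = 3 * h := by rw [hh]; ring
    have hhz : ((c : ℤ) * 3 ^ (i + 1)) = (h : ℤ) := by rw [hh]; push_cast; ring
    rw [hh'] at hjlt
    rw [hhz] at hmlt hmd
    have hh3 : (h : ℤ) % 3 = 0 := by
      rw [hh]; push_cast; rw [pow_succ, ← mul_assoc]; exact Int.mul_emod_left _ _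
    obtain ⟨s, hs⟩ := hmd
    have hzle : (h : ℤ) ^ 2 ≤ κ := by exact_mod_cast hjle
    have hzlt : (κ : ℤ) < (3 * h) ^ 2 := by exact_mod_cast hjlt
    have hhz0 : (0 : ℤ) < h := by exact_mod_cast hhpos
    -- membership from a label-0 representation
    have lab0 : ∀ (n t : ℤ), (κ : ℤ) - n ^ 2 = h * (3 * t) → 0 ≤ (κ : ℤ) - n ^ 2 →
        ∃ b ∈ B c, ∃ n : ℕ, κ = b + n ^ 2 := by
      intro n t hnt hn0
      apply key _ n hn0 rfl
      apply mem_B_of_dvd c hcpos (i + 1 + 1) _ (by omega)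
      · rw [hh']
        have : ((3 * h : ℕ) : ℤ) ∣ (((κ : ℤ) - n ^ 2).toNat : ℤ) := by
          rw [Int.toNat_of_nonneg hn0, hnt]
          push_cast
          exact ⟨t, by ring⟩
        exact_mod_cast this
      · rw [hh']
        have : (((κ : ℤ) - n ^ 2).toNat : ℤ) < ((3 * h : ℕ) : ℤ) ^ 2 := by
          rw [Int.toNat_of_nonneg hn0]
          push_cast
          nlinarith [sq_nonneg n]
        exact_mod_cast this
    -- membership from a label-2 representation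
    have lab2 : ∀ (n t : ℤ), (κ : ℤ) - n ^ 2 = h * t → t % 3 = 2 → 0 ≤ t → t < 2 * h →
        ∃ b ∈ B c, ∃ n : ℕ, κ = b + n ^ 2 := by
      intro n t hnt ht2 ht0 htlt
      have hn0 : 0 ≤ (κ : ℤ) - n ^ 2 := by rw [hnt]; positivity
      apply key _ n hn0 rfl
      have h1 : ((κ : ℤ) - n ^ 2).toNat = c * 3 ^ (i + 1) * t.toNat := by
        have : (((κ : ℤ) - n ^ 2).toNat : ℤ) = ((h * t.toNat : ℕ) : ℤ) := by
          rw [Int.toNat_of_nonneg hn0, hnt]
          push_cast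
          rw [Int.toNat_of_nonneg ht0]
        exact_mod_cast this
      rw [h1]
      apply mem_B_label c (i + 1) t.toNat (by omega)
      · omega
      · rw [← hh]; omega
    -- the two central roots
    have hmsq : m ^ 2 ≤ κ := by nlinarith
    have hpos_s : 0 ≤ s := by
      by_contra hneg
      push Not at hneg
      have : (κ : ℤ) - m ^ 2 < 0 := by rw [hs]; nlinarith
      linarith
    have hminus : (κ : ℤ) - (h - m) ^ 2 = h * (s + 2 * m - h) := by
      linear_combination hs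
    have hminus0 : 0 ≤ (κ : ℤ) - (h - m) ^ 2 := by nlinarith
    by_cases hC : 9 * (h : ℤ) ^ 2 ≤ 4 * κ
    · -- one root modulo `3 * h` in the half period
      obtain ⟨m', hm'0, hm'lt, -, hm'd⟩ := root c hc (i + 1) (κ : ℤ) (by omega)
      have hhz' : ((c : ℤ) * 3 ^ (i + 1 + 1)) = 3 * (h : ℤ) := by
        rw [hh]; push_cast; ring
      rw [hhz'] at hm'lt hm'd
      obtain ⟨t, ht⟩ := hm'd
      by_cases hhalf : 2 * m' ≤ 3 * h
      · apply lab0 m' t (by linear_combination ht)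
        nlinarith
      · push Not at hhalf
        apply lab0 (3 * h - m') (t + 2 * m' - 3 * h) (by linear_combination ht)
        nlinarith
    · push Not at hC
      have hs3 : s % 3 = 0 ∨ s % 3 = 1 ∨ s % 3 = 2 := by omega
      rcases hs3 with hs3 | hs3 | hs3
      · obtain ⟨t, rfl⟩ := Int.dvd_of_emod_eq_zero hs3
        exact lab0 m t hs (by linarith)
      · -- label 1 for `m`, hence label 0 for `h - m`
        obtain ⟨t, ht⟩ : (3 : ℤ) ∣ (s + 2 * m - h) := by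
          apply Int.dvd_of_emod_eq_zero
          omega
        rw [ht] at hminus
        exact lab0 (h - m) t hminus hminus0
      · by_cases hs2 : s < 2 * h
        · exact lab2 m s hs hs3 hpos_s hs2
        · push Not at hs2
          -- then `m ≤ h / 2` and `m + h` is a root with label 0
          have h1 : m ^ 2 ≤ κ - 2 * (h : ℤ) ^ 2 := by nlinarith
          have h2 : 2 * m ≤ h := by
            by_contra hcon
            push Not at hcon
            have h5 : (h : ℤ) ^ 2 < (2 * m) ^ 2 := pow_lt_pow_left₀ hcon hhz0.le (by norm_num)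
            linarith
          have h3 : (κ : ℤ) - (m + h) ^ 2 = h * (s - 2 * m - h) := by
            linear_combination hs
          have h4 : 0 ≤ (κ : ℤ) - (m + h) ^ 2 := by nlinarith
          obtain ⟨t, ht⟩ : (3 : ℤ) ∣ (s - 2 * m - h) := by
            apply Int.dvd_of_emod_eq_zero
            omega
          rw [ht] at h3
          exact lab0 (m + h) t h3 h4

/-- The admissible set. -/
def A₀ : Set ℕ := {a | a ∈ B 1 ∨ (∃ b ∈ B 1, a = b + 1) ∨ ∃ b ∈ B 2, a = b + 2}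

lemma admissible_A₀ : Admissible A₀ := by
  intro k
  rcases Nat.eq_zero_or_pos k with rfl | hk
  · exact ⟨0, Or.inl (Or.inl rfl), 0, by norm_num⟩
  · have h3 : k % 3 = 0 ∨ k % 3 = 1 ∨ k % 3 = 2 := by omega
    rcases h3 with h3 | h3 | h3
    · obtain ⟨b, hb, n, hn⟩ := cover 2 (Or.inr rfl) (k - 2) (by omega)
      exact ⟨b + 2, Or.inr (Or.inr ⟨b, hb, rfl⟩), n, by omega⟩
    · obtain ⟨b, hb, n, hn⟩ := cover 1 (Or.inl rfl) k h3
      exact ⟨b, Or.inl hb, n, hn⟩
    · obtain ⟨b, hb, n, hn⟩ := cover 1 (Or.inl rfl) (k - 1) (by omega)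
      exact ⟨b + 1, Or.inr (Or.inl ⟨b, hb, rfl⟩), n, by omega⟩

/-! ### Counting -/

/-- One residue class at one scale. -/
def S (h τ N : ℕ) : Finset ℕ :=
  ((Finset.range (τ * h)).filter (fun s => s % 3 = τ ∧ h * s ≤ N)).image (fun s => h * s)

lemma card_S (h τ N : ℕ) (hh : 0 < h) :
    ((S h τ N).card : ℝ) ≤ min ((τ : ℝ) * h) (N / h) / 3 + 2 := by
  have h1 : (S h τ N).card ≤ ((Finset.range (τ * h)).filter
      (fun s => s % 3 = τ ∧ h * s ≤ N)).card := Finset.card_image_le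
  have h2 : ((Finset.range (τ * h)).filter (fun s => s % 3 = τ ∧ h * s ≤ N)).card
      ≤ (Finset.range (min (τ * h) (N / h + 1) / 3 + 1)).card := by
    apply Finset.card_le_card_of_injOn (fun s => s / 3)
    · intro s hs
      simp only [Finset.coe_filter, Finset.mem_range, Set.mem_ofPred_eq] at hs
      simp only [Finset.coe_range, Set.mem_Iio]
      have h3 : s ≤ N / h := by
        rw [Nat.le_div_iff_mul_le hh, mul_comm]; exact hs.2.2
      have h4 : s < min (τ * h) (N / h + 1) := lt_min hs.1 (by omega)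
      omega
    · intro s hs s' hs' hss
      simp only [Finset.coe_filter, Finset.mem_range, Set.mem_ofPred_eq] at hs hs'
      simp only at hss
      omega
  rw [Finset.card_range] at h2
  have h3 : ((S h τ N).card : ℝ) ≤ ((min (τ * h) (N / h + 1) / 3 + 1 : ℕ) : ℝ) := by
    exact_mod_cast h1.trans h2
  have h4 : ((min (τ * h) (N / h + 1) / 3 + 1 : ℕ) : ℝ) ≤ (min (τ * h) (N / h + 1) : ℕ) / 3 + 1 := by
    push_cast
    have := @Nat.cast_div_le ℝ _ _ _ (min (τ * h) (N / h + 1)) 3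
    push_cast at this
    linarith
  have h5 : ((min (τ * h) (N / h + 1) : ℕ) : ℝ) ≤ min ((τ : ℝ) * h) (N / h) + 1 := by
    rw [Nat.cast_min]
    push_cast
    have h6 : ((N / h : ℕ) : ℝ) ≤ (N : ℝ) / h := Nat.cast_div_le
    rcases le_total ((τ : ℝ) * h) (N / h) with hle | hle
    · rw [min_eq_left hle]
      exact (min_le_left _ _).trans (by linarith)
    · rw [min_eq_right hle]
      exact (min_le_right _ _).trans (by linarith)
  linarith

lemma B_subset (c : ℕ) (hc : 0 < c) (N : ℕ) :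
    B c ∩ Set.Icc 1 N ⊆
      ((Finset.Icc 1 (Nat.log 3 N)).biUnion
        (fun i => S (c * 3 ^ i) 1 N ∪ S (c * 3 ^ i) 2 N) : Finset ℕ) := by
  rintro b ⟨hb, hb1, hbN⟩
  rcases hb with rfl | ⟨i, s, hi, rfl, hs⟩
  · omega
  · have hspos : 0 < s := by omega
    have hi3 : 3 ^ i ≤ N := by
      calc 3 ^ i ≤ c * 3 ^ i := Nat.le_mul_of_pos_left _ hc
        _ ≤ c * 3 ^ i * s := Nat.le_mul_of_pos_right _ hspos
        _ ≤ N := hbN
    have hN : N ≠ 0 := by
      have : 0 < 3 ^ i := by positivity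
      omega
    rw [Finset.coe_biUnion]
    simp only [Finset.coe_Icc, Set.mem_Icc, Set.mem_iUnion, exists_prop]
    refine ⟨i, ⟨hi, Nat.le_log_of_pow_le (by norm_num) hi3⟩, ?_⟩
    simp only [S, Finset.coe_union, Finset.coe_image, Finset.coe_filter, Finset.mem_range,
      Set.mem_union, Set.mem_image, Set.mem_ofPred_eq]
    rcases hs with ⟨hs3, hlt⟩ | ⟨hs3, hlt⟩
    · exact Or.inl ⟨s, ⟨by omega, hs3, hbN⟩, rfl⟩
    · exact Or.inr ⟨s, ⟨hlt, hs3, hbN⟩, rfl⟩

lemma geom_bound (a b : ℝ) (ha : 0 ≤ a) (hb : 0 ≤ b) (K I : ℕ) :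
    ∑ i ∈ Finset.Icc 1 I, min (a * 3 ^ i) (b / 3 ^ i) ≤ 3 / 2 * a * 3 ^ K + b / (2 * 3 ^ K) := by
  have h1 : ∑ i ∈ Finset.Icc 1 I, min (a * 3 ^ i) (b / 3 ^ i)
      ≤ ∑ i ∈ Finset.Icc 1 I, (if i ≤ K then a * 3 ^ i else b / 3 ^ i) := by
    apply Finset.sum_le_sum
    intro i _
    split_ifs
    · exact min_le_left _ _
    · exact min_le_right _ _
  have h2 : ∀ I : ℕ, ∑ i ∈ Finset.Icc 1 I, (if i ≤ K then a * 3 ^ i else b / 3 ^ i)
      ≤ (if I ≤ K then 3 / 2 * a * 3 ^ I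
          else 3 / 2 * a * 3 ^ K + b / 2 * (1 / 3 ^ K - 1 / 3 ^ I)) := by
    intro I
    induction I with
    | zero => simp; positivity
    | succ I ih =>
      rw [Finset.sum_Icc_succ_top (by omega)]
      rcases lt_trichotomy I K with hlt | rfl | hgt
      · rw [if_pos (by omega : I ≤ K)] at ih
        rw [if_pos (by omega : I + 1 ≤ K), if_pos (by omega : I + 1 ≤ K), pow_succ]
        linarith
      · rw [if_pos le_rfl] at ih
        rw [if_neg (by omega : ¬ I + 1 ≤ I), if_neg (by omega : ¬ I + 1 ≤ I), pow_succ]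
        have : b / (3 ^ I * 3) = b / 2 * (1 / 3 ^ I - 1 / (3 ^ I * 3)) := by
          field_simp; ring
        linarith
      · rw [if_neg (by omega : ¬ I ≤ K)] at ih
        rw [if_neg (by omega : ¬ I + 1 ≤ K), if_neg (by omega : ¬ I + 1 ≤ K), pow_succ]
        have : b / (3 ^ I * 3) = b / 2 * (1 / 3 ^ I - 1 / (3 ^ I * 3)) := by
          field_simp; ring
        linarith
  refine h1.trans ((h2 I).trans ?_)
  split_ifs with hIK
  · have h3 : (3 : ℝ) ^ I ≤ 3 ^ K := pow_le_pow_right₀ (by norm_num) hIK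
    have h4 : 0 ≤ b / (2 * 3 ^ K) := by positivity
    have h5 : 3 / 2 * a * 3 ^ I ≤ 3 / 2 * a * 3 ^ K := by
      apply mul_le_mul_of_nonneg_left h3; positivity
    linarith
  · have h3 : b / (2 * 3 ^ K) = b / 2 * (1 / 3 ^ K) := by field_simp
    have h4 : 0 ≤ b / 2 * (1 / 3 ^ I) := by positivity
    rw [h3]
    nlinarith

lemma card_B (c : ℕ) (hc : 0 < c) (N K₁ K₂ : ℕ) :
    ((B c ∩ Set.Icc 1 N).ncard : ℝ) ≤
      (3 / 2 * c * 3 ^ K₁ + N / c / (2 * 3 ^ K₁)) / 3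
      + (3 * c * 3 ^ K₂ + N / c / (2 * 3 ^ K₂)) / 3 + 4 * Nat.log 3 N := by
  have hcr : (0 : ℝ) < c := by exact_mod_cast hc
  have h1 : (B c ∩ Set.Icc 1 N).ncard ≤ ((Finset.Icc 1 (Nat.log 3 N)).biUnion
        (fun i => S (c * 3 ^ i) 1 N ∪ S (c * 3 ^ i) 2 N)).card := by
    rw [← Set.ncard_coe_finset]
    exact Set.ncard_le_ncard (B_subset c hc N) (Finset.finite_toSet _)
  have h2 : ((Finset.Icc 1 (Nat.log 3 N)).biUnion
        (fun i => S (c * 3 ^ i) 1 N ∪ S (c * 3 ^ i) 2 N)).card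
      ≤ ∑ i ∈ Finset.Icc 1 (Nat.log 3 N),
        ((S (c * 3 ^ i) 1 N).card + (S (c * 3 ^ i) 2 N).card) := by
    refine Finset.card_biUnion_le.trans (Finset.sum_le_sum ?_)
    intro i _
    exact Finset.card_union_le _ _
  have h3 : ((∑ i ∈ Finset.Icc 1 (Nat.log 3 N),
        ((S (c * 3 ^ i) 1 N).card + (S (c * 3 ^ i) 2 N).card) : ℕ) : ℝ)
      ≤ ∑ i ∈ Finset.Icc 1 (Nat.log 3 N),
        ((min ((c : ℝ) * 3 ^ i) (N / c / 3 ^ i) / 3 + 2)
          + (min ((2 * c : ℝ) * 3 ^ i) (N / c / 3 ^ i) / 3 + 2)) := by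
    push_cast
    apply Finset.sum_le_sum
    intro i _
    have hpos : 0 < c * 3 ^ i := by positivity
    have e1 := card_S (c * 3 ^ i) 1 N hpos
    have e2 := card_S (c * 3 ^ i) 2 N hpos
    have e3 : (N : ℝ) / ((c * 3 ^ i : ℕ) : ℝ) = N / c / 3 ^ i := by
      push_cast; rw [div_div]
    rw [e3] at e1 e2
    push_cast at e1 e2
    rw [one_mul] at e1
    rw [← mul_assoc] at e2
    linarith
  have h4 : ∑ i ∈ Finset.Icc 1 (Nat.log 3 N),
        ((min ((c : ℝ) * 3 ^ i) (N / c / 3 ^ i) / 3 + 2)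
          + (min ((2 * c : ℝ) * 3 ^ i) (N / c / 3 ^ i) / 3 + 2))
      = (∑ i ∈ Finset.Icc 1 (Nat.log 3 N), min ((c : ℝ) * 3 ^ i) (N / c / 3 ^ i)) / 3
        + (∑ i ∈ Finset.Icc 1 (Nat.log 3 N), min ((2 * c : ℝ) * 3 ^ i) (N / c / 3 ^ i)) / 3
        + 4 * Nat.log 3 N := by
    rw [Finset.sum_add_distrib, Finset.sum_add_distrib, Finset.sum_add_distrib,
      Finset.sum_div, Finset.sum_div]
    simp only [Finset.sum_const, Nat.card_Icc, nsmul_eq_mul]
    rw [Nat.add_sub_cancel]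
    ring
  have g1 := geom_bound (c : ℝ) ((N : ℝ) / c) hcr.le (by positivity) K₁ (Nat.log 3 N)
  have g2 := geom_bound (2 * c : ℝ) ((N : ℝ) / c) (by positivity) (by positivity) K₂ (Nat.log 3 N)
  have h5 : ((B c ∩ Set.Icc 1 N).ncard : ℝ) ≤ ((∑ i ∈ Finset.Icc 1 (Nat.log 3 N),
        ((S (c * 3 ^ i) 1 N).card + (S (c * 3 ^ i) 2 N).card) : ℕ) : ℝ) := by
    exact_mod_cast h1.trans h2
  have e4 : (3 / 2 * (2 * c : ℝ) * 3 ^ K₂) = 3 * c * 3 ^ K₂ := by ring
  rw [e4] at g2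
  linarith

lemma count_A₀ (N K₁ K₂ K₃ K₄ : ℕ) :
    (count A₀ N : ℝ) ≤
      (2 * (3 / 2 * 3 ^ K₁ + N / (2 * 3 ^ K₁)) + 2 * (3 * 3 ^ K₂ + N / (2 * 3 ^ K₂))
        + (3 * 3 ^ K₃ + N / (4 * 3 ^ K₃)) + (6 * 3 ^ K₄ + N / (4 * 3 ^ K₄))) / 3
      + (3 + 12 * Nat.log 3 N) := by
  have hsub : A₀ ∩ Set.Icc 1 N ⊆ ((B 1 ∩ Set.Icc 1 N) ∪ (fun b => b + 1) '' (insert 0 (B 1 ∩ Set.Icc 1 N)))
      ∪ (fun b => b + 2) '' (insert 0 (B 2 ∩ Set.Icc 1 N)) := by
    rintro a ⟨ha, ha1, haN⟩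
    rcases ha with ha | ⟨b, hb, rfl⟩ | ⟨b, hb, rfl⟩
    · exact Or.inl (Or.inl ⟨ha, ha1, haN⟩)
    · refine Or.inl (Or.inr ⟨b, ?_, rfl⟩)
      rcases Nat.eq_zero_or_pos b with rfl | hpos
      · exact Set.mem_insert _ _
      · exact Set.mem_insert_of_mem _ ⟨hb, hpos, by omega⟩
    · refine Or.inr ⟨b, ?_, rfl⟩
      rcases Nat.eq_zero_or_pos b with rfl | hpos
      · exact Set.mem_insert _ _
      · exact Set.mem_insert_of_mem _ ⟨hb, hpos, by omega⟩
  have hfin : ∀ c : ℕ, (B c ∩ Set.Icc 1 N).Finite := fun c =>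
    (Set.finite_Icc 1 N).subset Set.inter_subset_right
  have hfin' : ∀ c : ℕ, (insert 0 (B c ∩ Set.Icc 1 N)).Finite := fun c => (hfin c).insert 0
  have h1 : count A₀ N ≤ (B 1 ∩ Set.Icc 1 N).ncard + ((B 1 ∩ Set.Icc 1 N).ncard + 1)
      + ((B 2 ∩ Set.Icc 1 N).ncard + 1) := by
    unfold count
    refine (Set.ncard_le_ncard hsub (((hfin 1).union ((hfin' 1).image _)).union
      ((hfin' 2).image _))).trans ?_
    refine (Set.ncard_union_le _ _).trans ?_
    refine add_le_add ((Set.ncard_union_le _ _).trans ?_) ?_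
    · refine add_le_add le_rfl ((Set.ncard_image_le (hfin' 1)).trans ?_)
      exact Set.ncard_insert_le _ _
    · exact (Set.ncard_image_le (hfin' 2)).trans (Set.ncard_insert_le _ _)
  have h2 : (count A₀ N : ℝ) ≤ (B 1 ∩ Set.Icc 1 N).ncard + ((B 1 ∩ Set.Icc 1 N).ncard + 1)
      + ((B 2 ∩ Set.Icc 1 N).ncard + 1) := by exact_mod_cast h1
  have b1 := card_B 1 (by norm_num) N K₁ K₂
  have b2 := card_B 2 (by norm_num) N K₃ K₄
  push_cast at b1 b2
  have e1 : (N : ℝ) / 2 / (2 * 3 ^ K₃) = N / (4 * 3 ^ K₃) := by rw [div_div]; ring_nf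
  have e2 : (N : ℝ) / 2 / (2 * 3 ^ K₄) = N / (4 * 3 ^ K₄) := by rw [div_div]; ring_nf
  rw [e1, e2] at b2
  simp only [mul_one, div_one] at b1
  linarith

/-- Choosing the four cut points. -/
lemma main_bound (N : ℕ) (hN : 18 ≤ N) :
    (count A₀ N : ℝ) ≤ 9 / 2 * Real.sqrt N + (3 + 12 * Nat.log 3 N) := by
  -- the scale `g`
  obtain ⟨k, hk1, hk2⟩ : ∃ k : ℕ, 18 * 9 ^ k ≤ N ∧ N < 162 * 9 ^ k := by
    refine ⟨Nat.log 9 (N / 18), ?_, ?_⟩
    · have h1 : 9 ^ Nat.log 9 (N / 18) ≤ N / 18 := Nat.pow_log_le_self 9 (by omega)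
      omega
    · have h1 : N / 18 < 9 ^ (Nat.log 9 (N / 18) + 1) := Nat.lt_pow_succ_log_self (by norm_num) _
      rw [pow_succ] at h1
      omega
  set t : ℝ := Real.sqrt N with ht
  have htN : t ^ 2 = N := Real.sq_sqrt (Nat.cast_nonneg N)
  have ht0 : 0 ≤ t := Real.sqrt_nonneg _
  set g : ℝ := 3 ^ k with hg
  have hg0 : 0 < g := by positivity
  have hg2 : g ^ 2 = 9 ^ k := by rw [hg, ← pow_mul, mul_comm, pow_mul]; norm_num
  have hlo : 18 * g ^ 2 ≤ t ^ 2 := by rw [hg2, htN]; exact_mod_cast hk1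
  have hhi : t ^ 2 < 162 * g ^ 2 := by rw [hg2, htN]; exact_mod_cast hk2
  have hp1 : (3 : ℝ) ^ (k + 1) = 3 * g := by rw [pow_succ]; ring
  have hp2 : (3 : ℝ) ^ (k + 2) = 9 * g := by rw [pow_add]; norm_num; ring
  rcases lt_or_ge (t ^ 2) (36 * g ^ 2) with h36 | h36
  · have hc := count_A₀ N (k + 1) (k + 1) k k
    rw [hp1, ← hg, ← htN] at hc
    have u1 : t ≤ 6 * g := by nlinarith
    have u2 : 4.24 * g ≤ t := by nlinarith
    have e : (2 * (3 / 2 * (3 * g) + t ^ 2 / (2 * (3 * g))) + 2 * (3 * (3 * g) + t ^ 2 / (2 * (3 * g)))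
        + (3 * g + t ^ 2 / (4 * g)) + (6 * g + t ^ 2 / (4 * g))) / 3
        = (12 * g ^ 2 + 7 / 18 * t ^ 2) / g := by field_simp; ring
    rw [e] at hc
    have f : (12 * g ^ 2 + 7 / 18 * t ^ 2) / g ≤ 9 / 2 * t := by
      rw [div_le_iff₀ hg0]
      nlinarith [mul_nonneg (sub_nonneg.2 u1) (sub_nonneg.2 u2)]
    linarith
  rcases lt_or_ge (t ^ 2) (72 * g ^ 2) with h72 | h72
  · have hc := count_A₀ N (k + 1) (k + 1) (k + 1) k
    rw [hp1, ← hg, ← htN] at hc
    have u1 : t ≤ 8.486 * g := by nlinarith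
    have u2 : 6 * g ≤ t := by nlinarith
    have e : (2 * (3 / 2 * (3 * g) + t ^ 2 / (2 * (3 * g))) + 2 * (3 * (3 * g) + t ^ 2 / (2 * (3 * g)))
        + (3 * (3 * g) + t ^ 2 / (4 * (3 * g))) + (6 * g + t ^ 2 / (4 * g))) / 3
        = (14 * g ^ 2 + 1 / 3 * t ^ 2) / g := by field_simp; ring
    rw [e] at hc
    have f : (14 * g ^ 2 + 1 / 3 * t ^ 2) / g ≤ 9 / 2 * t := by
      rw [div_le_iff₀ hg0]
      nlinarith [mul_nonneg (sub_nonneg.2 u1) (sub_nonneg.2 u2)]
    linarith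
  rcases lt_or_ge (t ^ 2) (81 * g ^ 2) with h81 | h81
  · have hc := count_A₀ N (k + 1) (k + 1) (k + 1) (k + 1)
    rw [hp1, ← htN] at hc
    have u1 : t ≤ 9 * g := by nlinarith
    have u2 : 7.2 * g ≤ t := by nlinarith
    have e : (2 * (3 / 2 * (3 * g) + t ^ 2 / (2 * (3 * g))) + 2 * (3 * (3 * g) + t ^ 2 / (2 * (3 * g)))
        + (3 * (3 * g) + t ^ 2 / (4 * (3 * g))) + (6 * (3 * g) + t ^ 2 / (4 * (3 * g)))) / 3
        = (18 * g ^ 2 + 5 / 18 * t ^ 2) / g := by field_simp; ring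
    rw [e] at hc
    have f : (18 * g ^ 2 + 5 / 18 * t ^ 2) / g ≤ 9 / 2 * t := by
      rw [div_le_iff₀ hg0]
      nlinarith [mul_nonneg (sub_nonneg.2 u1) (sub_nonneg.2 u2)]
    linarith
  · have hc := count_A₀ N (k + 2) (k + 1) (k + 1) (k + 1)
    rw [hp1, hp2, ← htN] at hc
    have u1 : t ≤ 13 * g := by nlinarith
    have u2 : 9 * g ≤ t := by nlinarith
    have e : (2 * (3 / 2 * (9 * g) + t ^ 2 / (2 * (9 * g))) + 2 * (3 * (3 * g) + t ^ 2 / (2 * (3 * g)))
        + (3 * (3 * g) + t ^ 2 / (4 * (3 * g))) + (6 * (3 * g) + t ^ 2 / (4 * (3 * g)))) / 3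
        = (24 * g ^ 2 + 11 / 54 * t ^ 2) / g := by field_simp; ring
    rw [e] at hc
    have f : (24 * g ^ 2 + 11 / 54 * t ^ 2) / g ≤ 9 / 2 * t := by
      rw [div_le_iff₀ hg0]
      nlinarith [mul_nonneg (sub_nonneg.2 u1) (sub_nonneg.2 u2)]
    linarith

lemma tendsto_bound :
    Tendsto (fun N : ℕ => (9 / 2 : ℝ) + (3 + 12 * Real.log N) / Real.sqrt N) atTop
      (𝓝 (9 / 2)) := by
  have h1 : Tendsto (fun x : ℝ => (3 + 12 * Real.log x) / Real.sqrt x) atTop (𝓝 0) := by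
    have h2 : Tendsto (fun x : ℝ => Real.log x / x ^ (1 / 2 : ℝ)) atTop (𝓝 0) :=
      (isLittleO_log_rpow_atTop (by norm_num : (0 : ℝ) < 1 / 2)).tendsto_div_nhds_zero
    have h3 : Tendsto (fun x : ℝ => 3 / Real.sqrt x) atTop (𝓝 0) :=
      tendsto_const_nhds.div_atTop Real.tendsto_sqrt_atTop
    have h4 := h3.add (h2.const_mul 12)
    simp only [mul_zero, add_zero] at h4
    refine h4.congr ?_
    intro x
    rw [← Real.sqrt_eq_rpow, add_div, mul_div_assoc]
  have h5 := (h1.comp tendsto_natCast_atTop_atTop).const_add (9 / 2 : ℝ)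
  simpa using h5

/-- **Theorem.** `c ≤ 9/2`. -/
theorem result : c ≤ 9 / 2 := by
  have h1 : delta A₀ ≤ 9 / 2 := by
    have h2 : Tendsto (fun N : ℕ => ENNReal.ofReal ((9 / 2 : ℝ) + (3 + 12 * Real.log N) / Real.sqrt N))
        atTop (𝓝 (ENNReal.ofReal (9 / 2))) := (ENNReal.continuous_ofReal.tendsto _).comp tendsto_bound
    have h3 : ENNReal.ofReal (9 / 2) = 9 / 2 := by
      rw [ENNReal.ofReal_div_of_pos (by norm_num)]
      norm_num
    rw [← h3, ← h2.limsup_eq]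
    apply limsup_le_limsup
    · filter_upwards [eventually_ge_atTop 18] with N hN
      apply ENNReal.ofReal_le_ofReal
      have hNpos : (0 : ℝ) < N := by
        have : 0 < N := by omega
        exact_mod_cast this
      have hs : 0 < Real.sqrt N := Real.sqrt_pos.2 hNpos
      rw [div_le_iff₀ hs, add_mul, div_mul_cancel₀ _ hs.ne']
      refine (main_bound N hN).trans ?_
      have hlog : (Nat.log 3 N : ℝ) ≤ Real.log N := by
        have hN0 : N ≠ 0 := by omega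
        have h4 : ((3 : ℝ) ^ Nat.log 3 N) ≤ N := by exact_mod_cast Nat.pow_log_le_self 3 hN0
        have h5 := Real.log_le_log (by positivity) h4
        rw [Real.log_pow] at h5
        have h6 : 1 ≤ Real.log 3 := by
          rw [← Real.log_exp 1]
          apply Real.log_le_log (Real.exp_pos 1)
          have := Real.exp_one_lt_d9
          linarith
        nlinarith [(Nat.cast_nonneg (Nat.log 3 N) : (0 : ℝ) ≤ _)]
      linarith
    · exact ⟨⊥, by simp⟩
    · exact ⟨⊤, by simp⟩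
  exact (iInf_le (fun A : {A : Set ℕ // Admissible A} => delta A.1) ⟨A₀, admissible_A₀⟩).trans h1

end Pool.Agent.Results.MP_a02313_nt.NineHalves
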